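import Mathlib
import Pool.Agent.TH327.WMP4

/-!
# Domain spaces with the weak maximizing property for all ranges are finite-dimensional

Let `E` be a Banach space over `ℝ` or `ℂ`.  If `(E, F)` has the weak maximizing property for every
Banach space `F`, or only for `F = ℓ_∞`, then `E` is finite-dimensional.

Sketch.  Rank one operators and James's theorem give reflexivity.  Let `U` be a weakly null
ultrafilter on the unit sphere and `h(z) = lim_U ‖z + y‖`.  If `h(z₁) < 1 + ‖z₁‖` for some `z₁`, then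
Ekeland's principle and the Hahn-Banach theorem produce `z ≠ 0`, unit vectors `y_k` and functionals
`g_k` in the dual ball almost norming `z + y_k` whose weak cluster points have norm at most `c < 1`,
and the operator `x ↦ (a_k g_k(x))`, `a_k ↑ 1`, contradicts the weak maximizing property.  Otherwise
`h(z) = 1 + ‖z‖` for all `z`, and `E` contains `ℓ₁`, which contradicts reflexivity.
-/

set_option autoImplicit false

namespace Pool.Agent.Results.MP_479f73_an.FiniteDimensionalOnly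

open Filter Topology
open scoped ENNReal

universe u

/-- `T` attains its norm at a vector of the unit sphere. -/
def AttainsNorm {𝕜 : Type} [RCLike 𝕜] {E : Type u} {F : Type} [NormedAddCommGroup E]
    [NormedSpace 𝕜 E] [NormedAddCommGroup F] [NormedSpace 𝕜 F] (T : E →L[𝕜] F) : Prop :=
  ∃ x : E, ‖x‖ = 1 ∧ ‖T x‖ = ‖T‖

/-- `x` is a maximizing sequence for `T`: a sequence in the unit sphere with `‖T x_n‖ → ‖T‖`. -/
def IsMaximizing {𝕜 : Type} [RCLike 𝕜] {E : Type u} {F : Type} [NormedAddCommGroup E]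
    [NormedSpace 𝕜 E] [NormedAddCommGroup F] [NormedSpace 𝕜 F] (T : E →L[𝕜] F) (x : ℕ → E) : Prop :=
  (∀ n, ‖x n‖ = 1) ∧ Tendsto (fun n => ‖T (x n)‖) atTop (𝓝 ‖T‖)

/-- `x` is weakly null: `f (x_n) → 0` for every continuous linear functional `f`. -/
def WeaklyNull (𝕜 : Type) [RCLike 𝕜] {E : Type u} [NormedAddCommGroup E] [NormedSpace 𝕜 E]
    (x : ℕ → E) : Prop :=
  ∀ f : StrongDual 𝕜 E, Tendsto (fun n => f (x n)) atTop (𝓝 0)

/-- The pair `(E, F)` has the weak maximizing property: every bounded operator from `E` to `F` that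
has a maximizing sequence which is not weakly null attains its norm. -/
def WMP (𝕜 : Type) [RCLike 𝕜] (E : Type u) (F : Type) [NormedAddCommGroup E] [NormedSpace 𝕜 E]
    [NormedAddCommGroup F] [NormedSpace 𝕜 F] : Prop :=
  ∀ T : E →L[𝕜] F, (∃ x : ℕ → E, IsMaximizing T x ∧ ¬ WeaklyNull 𝕜 x) → AttainsNorm T

/-- The space `ℓ_∞` over `𝕜`. -/
abbrev Linf (𝕜 : Type) [RCLike 𝕜] : Type := lp (fun _ : ℕ => 𝕜) ∞

section

variable {𝕜 : Type} [RCLike 𝕜] {E : Type u} [NormedAddCommGroup E] [NormedSpace 𝕜 E]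

/-- the operator into `ℓ_∞` given by a sequence of functionals of norm at most one -/
noncomputable def op (G : ℕ → StrongDual 𝕜 E) (hG : ∀ k, ‖G k‖ ≤ 1) : E →L[𝕜] Linf 𝕜 :=
  LinearMap.mkContinuous
    { toFun := fun x => ⟨fun k => G k x, memℓp_infty ⟨‖x‖, by
        rintro _ ⟨k, rfl⟩
        exact ((G k).le_opNorm x).trans (mul_le_of_le_one_left (norm_nonneg _) (hG k))⟩⟩
      map_add' := fun x y => by
        ext k
        exact map_add (G k) x y
      map_smul' := fun c x => by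
        ext k
        exact map_smul (G k) c x } 1 (fun x => by
      rw [one_mul]
      refine lp.norm_le_of_forall_le (norm_nonneg _) fun k => ?_
      exact ((G k).le_opNorm x).trans (mul_le_of_le_one_left (norm_nonneg _) (hG k)))

theorem op_apply (G : ℕ → StrongDual 𝕜 E) (hG : ∀ k, ‖G k‖ ≤ 1) (x : E) (k : ℕ) :
    (op G hG x : ∀ _ : ℕ, 𝕜) k = G k x := rfl

theorem op_norm_le (G : ℕ → StrongDual 𝕜 E) (hG : ∀ k, ‖G k‖ ≤ 1) : ‖op G hG‖ ≤ 1 :=
  LinearMap.mkContinuous_norm_le _ zero_le_one _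

theorem le_op (G : ℕ → StrongDual 𝕜 E) (hG : ∀ k, ‖G k‖ ≤ 1) (x : E) (k : ℕ) :
    ‖G k x‖ ≤ ‖op G hG x‖ := lp.norm_apply_le_norm ENNReal.top_ne_zero (op G hG x) k

theorem op_le (G : ℕ → StrongDual 𝕜 E) (hG : ∀ k, ‖G k‖ ≤ 1) (x : E) (C : ℝ) (hC : 0 ≤ C)
    (h : ∀ k, ‖G k x‖ ≤ C) : ‖op G hG x‖ ≤ C := lp.norm_le_of_forall_le hC h

/-- all functionals attain their norm -/
theorem attains (h : WMP 𝕜 E (Linf 𝕜)) [Nontrivial E] (f : StrongDual 𝕜 E) :
    ∃ x : E, ‖x‖ = 1 ∧ ‖f x‖ = ‖f‖ := by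
  classical
  rcases eq_or_ne f 0 with h0 | h0
  · obtain ⟨x, hx⟩ := exists_ne (0 : E)
    have hx0 : 0 < ‖x‖ := norm_pos_iff.2 hx
    refine ⟨((‖x‖⁻¹ : ℝ) : 𝕜) • x, ?_, by rw [h0]; simp⟩
    rw [norm_smul, RCLike.norm_ofReal, abs_of_pos (inv_pos.2 hx0), inv_mul_cancel₀ hx0.ne']
  have hf0 : 0 < ‖f‖ := norm_pos_iff.2 h0
  -- normalize
  set f1 : StrongDual 𝕜 E := ((‖f‖⁻¹ : ℝ) : 𝕜) • f with hf1
  have hf1n : ‖f1‖ = 1 := by
    rw [hf1, norm_smul, RCLike.norm_ofReal, abs_of_pos (inv_pos.2 hf0), inv_mul_cancel₀ hf0.ne']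
  have hG : ∀ k : ℕ, ‖(fun _ : ℕ => f1) k‖ ≤ 1 := fun _ => hf1n.le
  set T := op (fun _ : ℕ => f1) hG with hT
  have hTx : ∀ x, ‖T x‖ = ‖f1 x‖ := fun x =>
    le_antisymm (op_le _ hG x _ (norm_nonneg _) fun _ => le_rfl) (le_op _ hG x 0)
  have hTn : ‖T‖ = 1 := by
    apply le_antisymm (op_norm_le _ hG)
    rw [← hf1n]
    refine ContinuousLinearMap.opNorm_le_bound _ (norm_nonneg _) fun x => ?_
    rw [← hTx]
    exact T.le_opNorm x
  -- a maximizing sequence
  have hex : ∀ n : ℕ, ∃ x : E, ‖x‖ = 1 ∧ 1 - 1 / ((n : ℝ) + 1) ≤ ‖f1 x‖ := by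
    intro n
    by_contra hcon
    push Not at hcon
    have hn : (0 : ℝ) < 1 / ((n : ℝ) + 1) := by positivity
    have hn1 : 1 / ((n : ℝ) + 1) ≤ 1 := by
      rw [div_le_one (by positivity)]
      have : (0 : ℝ) ≤ n := Nat.cast_nonneg _
      linarith
    have h1 : ‖f1‖ ≤ 1 - 1 / ((n : ℝ) + 1) := by
      refine ContinuousLinearMap.opNorm_le_bound _ (by linarith) fun x => ?_
      rcases eq_or_ne x 0 with hx | hx
      · rw [hx]; simp
      have hx0 : 0 < ‖x‖ := norm_pos_iff.2 hx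
      have h2 := hcon (((‖x‖⁻¹ : ℝ) : 𝕜) • x) (by
        rw [norm_smul, RCLike.norm_ofReal, abs_of_pos (inv_pos.2 hx0), inv_mul_cancel₀ hx0.ne'])
      rw [map_smul, norm_smul, RCLike.norm_ofReal, abs_of_pos (inv_pos.2 hx0),
        ← div_eq_inv_mul, div_lt_iff₀ hx0] at h2
      exact h2.le
    rw [hf1n] at h1
    linarith
  choose x hx1 hx2 using hex
  have hlim : Tendsto (fun n => ‖f1 (x n)‖) atTop (𝓝 1) := by
    have h1 : Tendsto (fun k : ℕ => 1 - 1 / ((k : ℝ) + 1)) atTop (𝓝 1) := by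
      have := (tendsto_one_div_add_atTop_nhds_zero_nat (𝕜 := ℝ)).const_sub 1
      rwa [sub_zero] at this
    refine tendsto_of_tendsto_of_tendsto_of_le_of_le h1 tendsto_const_nhds hx2 fun n => ?_
    have := f1.le_opNorm (x n)
    rw [hf1n, hx1, one_mul] at this
    exact this
  obtain ⟨y, hy1, hy2⟩ := h T ⟨x, ⟨hx1, by
    rw [hTn]
    exact hlim.congr fun n => (hTx _).symm⟩, fun hw => by
    have h1 := (hw f1).norm
    rw [norm_zero] at h1
    exact zero_ne_one (tendsto_nhds_unique h1 hlim)⟩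
  refine ⟨y, hy1, ?_⟩
  rw [hTx, hTn, hf1, smul_apply, norm_smul, RCLike.norm_ofReal,
    abs_of_pos (inv_pos.2 hf0), ← div_eq_inv_mul, div_eq_one_iff_eq hf0.ne'] at hy2
  exact hy2

/-- a bad configuration contradicts the weak maximizing property -/
theorem false_of_bad [NormedSpace ℝ E] [IsScalarTower ℝ 𝕜 E]
    (h : WMP 𝕜 E (Linf 𝕜)) (hb : Pool.Agent.TH327.WMP.Bad E) : False := by
  classical
  obtain ⟨x, g, g0, c, d, hc, hd, hx, hg, hlim, hdx, hV⟩ := hb
  -- complexification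
  set G : ℕ → StrongDual 𝕜 E := fun k => (g k).extendRCLike with hG
  have hGn : ∀ k, ‖G k‖ = ‖g k‖ := fun k => StrongDual.norm_extendRCLike (𝕜 := 𝕜) (g k)
  have hGa : ∀ k y, G k y = ((g k y : ℝ) : 𝕜) - RCLike.I * ((g k ((RCLike.I : 𝕜) • y) : ℝ) : 𝕜) :=
    fun k y => rfl
  have hGre : ∀ k y, RCLike.re (G k y) = g k y := fun k y => by
    rw [hGa]
    simp
  set a : ℕ → ℝ := fun k => 1 - 1 / ((k : ℝ) + 2) with ha
  have ha0 : ∀ k, 0 ≤ a k := fun k => by
    simp only [ha]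
    have : 1 / ((k : ℝ) + 2) ≤ 1 := by
      rw [div_le_one (by positivity)]
      have : (0 : ℝ) ≤ k := Nat.cast_nonneg _
      linarith
    linarith
  have ha1 : ∀ k, a k < 1 := fun k => by
    simp only [ha]
    have : (0 : ℝ) < 1 / ((k : ℝ) + 2) := by positivity
    linarith
  have hamono : ∀ k m : ℕ, k ≤ m → a k ≤ a m := fun k m hkm => by
    simp only [ha]
    have : 1 / ((m : ℝ) + 2) ≤ 1 / ((k : ℝ) + 2) := by
      apply one_div_le_one_div_of_le (by positivity)
      have : (k : ℝ) ≤ m := by exact_mod_cast hkm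
      linarith
    linarith
  have halim : Tendsto a atTop (𝓝 1) := by
    have h1 : Tendsto (fun k : ℕ => 1 / (((k + 1 : ℕ) : ℝ) + 1)) atTop (𝓝 0) :=
      (tendsto_one_div_add_atTop_nhds_zero_nat (𝕜 := ℝ)).comp (tendsto_add_atTop_nat 1)
    have h2 := h1.const_sub 1
    rw [sub_zero] at h2
    refine h2.congr fun k => ?_
    simp only [ha]
    push_cast
    ring_nf
  have hA : ∀ k, ‖((a k : ℝ) : 𝕜) • G k‖ ≤ 1 := fun k => by
    rw [norm_smul, RCLike.norm_ofReal, abs_of_nonneg (ha0 k), hGn]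
    exact mul_le_one₀ (ha1 k).le (norm_nonneg _) (hg k)
  set T := op (fun k => ((a k : ℝ) : 𝕜) • G k) hA with hT
  have hTn : ‖T‖ ≤ 1 := op_norm_le _ hA
  have hTapp : ∀ k y, ‖(((a k : ℝ) : 𝕜) • G k) y‖ = a k * ‖G k y‖ := fun k y => by
    rw [smul_apply, norm_smul, RCLike.norm_ofReal, abs_of_nonneg (ha0 k)]
  have hlow : ∀ k, a k * g k (x k) ≤ ‖T (x k)‖ := by
    intro k
    refine le_trans ?_ (le_op _ hA (x k) k)
    rw [hTapp]
    refine mul_le_mul_of_nonneg_left ?_ (ha0 k)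
    rw [← hGre]
    exact RCLike.re_le_norm _
  have hup : ∀ k, ‖T (x k)‖ ≤ 1 := fun k => by
    have := T.le_opNorm (x k)
    rw [hx, mul_one] at this
    exact this.trans hTn
  have hTlim : Tendsto (fun k => ‖T (x k)‖) atTop (𝓝 1) := by
    have h1 := halim.mul hlim
    rw [mul_one] at h1
    exact tendsto_of_tendsto_of_tendsto_of_le_of_le h1 tendsto_const_nhds hlow hup
  have hTn1 : ‖T‖ = 1 := by
    apply le_antisymm hTn
    refine le_of_tendsto hTlim (Eventually.of_forall fun k => ?_)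
    have := T.le_opNorm (x k)
    rwa [hx, mul_one] at this
  have hnw : ¬ WeaklyNull 𝕜 x := by
    intro hw
    have h1 := hw (g0.extendRCLike : StrongDual 𝕜 E)
    have h2 : Tendsto (fun n => RCLike.re ((g0.extendRCLike : StrongDual 𝕜 E) (x n))) atTop
        (𝓝 (RCLike.re (0 : 𝕜))) := (RCLike.continuous_re.tendsto _).comp h1
    have h3 : ∀ n, RCLike.re ((g0.extendRCLike : StrongDual 𝕜 E) (x n)) = g0 (x n) := fun n => by
      have : (g0.extendRCLike : StrongDual 𝕜 E) (x n) =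
        ((g0 (x n) : ℝ) : 𝕜) - RCLike.I * ((g0 ((RCLike.I : 𝕜) • (x n)) : ℝ) : 𝕜) := rfl
      rw [this]
      simp
    simp only [h3, map_zero] at h2
    have h4 := ge_of_tendsto h2 (Eventually.of_forall hdx)
    linarith
  obtain ⟨y, hy1, hy2⟩ := h T ⟨x, ⟨hx, by rw [hTn1]; exact hTlim⟩, hnw⟩
  rw [hTn1] at hy2
  -- eventually the functionals are small at `y`
  set c1 : ℝ := (1 + max c 0) / 2 with hc1
  have hc1a : c < c1 := by
    rw [hc1]
    have := le_max_left c 0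
    have h2 : max c 0 < 1 := max_lt hc one_pos
    linarith
  have hc1b : c1 < 1 := by
    rw [hc1]
    have h2 : max c 0 < 1 := max_lt hc one_pos
    linarith
  have hc10 : 0 ≤ c1 := by
    rw [hc1]
    have := le_max_right c 0
    linarith
  have hev : ∀ᶠ k in atTop, ‖G k y‖ < c1 := by
    by_contra hcon
    rw [Filter.not_eventually] at hcon
    have hNB : NeBot (atTop ⊓ 𝓟 {k : ℕ | ¬ ‖G k y‖ < c1}) := Filter.frequently_mem_iff_neBot.1 hcon
    set V := Ultrafilter.of (atTop ⊓ 𝓟 {k : ℕ | ¬ ‖G k y‖ < c1}) with hVdef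
    have hVle := Ultrafilter.of_le (atTop ⊓ 𝓟 {k : ℕ | ¬ ‖G k y‖ < c1})
    obtain ⟨G', -, hG'⟩ := Pool.Agent.TH327.JS.exists_ultralimit V g 1 hg
    have hG'n := hV V (hVle.trans inf_le_left) G' hG'
    have h1 : Tendsto (fun k => G k y) V (𝓝 ((G'.extendRCLike : StrongDual 𝕜 E) y)) := by
      have e1 : Tendsto (fun k => ((g k y : ℝ) : 𝕜)) V (𝓝 ((G' y : ℝ) : 𝕜)) :=
        (RCLike.continuous_ofReal.tendsto _).comp (hG' y)
      have e2 : Tendsto (fun k => ((g k ((RCLike.I : 𝕜) • y) : ℝ) : 𝕜)) V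
          (𝓝 ((G' ((RCLike.I : 𝕜) • y) : ℝ) : 𝕜)) :=
        (RCLike.continuous_ofReal.tendsto _).comp (hG' _)
      exact e1.sub (e2.const_mul _)
    have h2 : ‖(G'.extendRCLike : StrongDual 𝕜 E) y‖ ≤ c := by
      refine ((G'.extendRCLike : StrongDual 𝕜 E).le_opNorm y).trans ?_
      rw [hy1, mul_one, StrongDual.norm_extendRCLike]
      exact hG'n
    have h3 : c1 ≤ ‖(G'.extendRCLike : StrongDual 𝕜 E) y‖ := by
      refine ge_of_tendsto h1.norm ?_
      have h4 : {k : ℕ | ¬ ‖G k y‖ < c1} ∈ (V : Filter ℕ) :=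
        hVle (mem_inf_of_right (mem_principal_self _))
      filter_upwards [h4] with k hk
      exact not_lt.1 hk
    linarith
  obtain ⟨K, hK⟩ := eventually_atTop.1 hev
  have h5 : ‖T y‖ ≤ max c1 (a K) := by
    refine op_le _ hA y _ (le_max_of_le_left hc10) fun k => ?_
    rw [hTapp]
    rcases le_or_gt K k with hk | hk
    · refine le_max_of_le_left ?_
      calc a k * ‖G k y‖ ≤ 1 * ‖G k y‖ := mul_le_mul_of_nonneg_right (ha1 k).le (norm_nonneg _)
        _ = ‖G k y‖ := one_mul _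
        _ ≤ c1 := (hK k hk).le
    · refine le_max_of_le_right ?_
      have h6 : ‖G k y‖ ≤ 1 := by
        have := (G k).le_opNorm y
        rw [hy1, mul_one, hGn] at this
        exact this.trans (hg k)
      calc a k * ‖G k y‖ ≤ a k * 1 := mul_le_mul_of_nonneg_left h6 (ha0 k)
        _ = a k := mul_one _
        _ ≤ a K := hamono k K hk.le
  have h6 : max c1 (a K) < 1 := max_lt hc1b (ha1 K)
  linarith

theorem main [CompleteSpace E] (h : WMP 𝕜 E (Linf 𝕜)) : FiniteDimensional 𝕜 E := by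
  classical
  by_contra hfin
  let _ : NormedSpace ℝ E := NormedSpace.restrictScalars ℝ 𝕜 E
  have _ : IsScalarTower ℝ 𝕜 E := RestrictScalars.isScalarTower ℝ 𝕜 E
  have hnt : Nontrivial E := by
    by_contra hno
    rw [not_nontrivial_iff_subsingleton] at hno
    exact hfin inferInstance
  have hfinR : ¬ FiniteDimensional ℝ E := by
    intro hf
    exact hfin (Module.Finite.of_restrictScalars_finite ℝ 𝕜 E)
  have hrefl : Function.Surjective (NormedSpace.inclusionInDoubleDual ℝ E) := by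
    apply Pool.Agent.TH327.JS.james
    intro f
    obtain ⟨x, hx1, hx2⟩ := attains h (f.extendRCLike : StrongDual 𝕜 E)
    rw [StrongDual.norm_extendRCLike] at hx2
    -- rotate
    set F : StrongDual 𝕜 E := f.extendRCLike with hF
    obtain ⟨l, hl1, hl2⟩ : ∃ l : 𝕜, ‖l‖ = 1 ∧ l * F x = ((‖F x‖ : ℝ) : 𝕜) := by
      obtain ⟨l, hl1, hl2⟩ := RCLike.exists_norm_mul_eq_self (F x)
      refine ⟨l⁻¹, by rw [norm_inv, hl1, inv_one], ?_⟩
      have hl0 : l ≠ 0 := by
        intro h0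
        rw [h0, norm_zero] at hl1
        exact zero_ne_one hl1
      field_simp
      exact hl2.symm
    refine ⟨l • x, by rw [norm_smul, hl1, hx1, one_mul], ?_⟩
    have h3 : RCLike.re (F (l • x)) = f (l • x) := by
      have : F (l • x) = ((f (l • x) : ℝ) : 𝕜) - RCLike.I * ((f ((RCLike.I : 𝕜) • (l • x)) : ℝ) : 𝕜) := rfl
      rw [this]
      simp
    rw [← h3, map_smul, smul_eq_mul, hl2, RCLike.ofReal_re, hx2]
  exact false_of_bad h (Pool.Agent.TH327.WMP.bad hfinR hrefl)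

end

/-- **Theorem.** Let `E` be a Banach space over `𝕜 = ℝ` or `ℂ`.
1. If `(E, F)` has the weak maximizing property for every Banach space `F`, then `E` is
finite-dimensional.
2. It suffices that `(E, ℓ_∞)` has the weak maximizing property. -/
theorem result (𝕜 : Type) [RCLike 𝕜] (E : Type u) [NormedAddCommGroup E] [NormedSpace 𝕜 E]
    [CompleteSpace E] :
    ((∀ (F : Type) [NormedAddCommGroup F] [NormedSpace 𝕜 F] [CompleteSpace F], WMP 𝕜 E F) →
      FiniteDimensional 𝕜 E) ∧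
    (WMP 𝕜 E (Linf 𝕜) → FiniteDimensional 𝕜 E) :=
  ⟨fun h => main (h (Linf 𝕜)), fun h => main h⟩

end Pool.Agent.Results.MP_479f73_an.FiniteDimensionalOnly
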